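import Pool.Agent.URW.Fin.Main

/-!
# Small Uryson width of the universal cover, large Uryson width of the space

NEGATIVE ANSWER to Q1 of MP_fc0f29_gt: there are compact geodesic spaces `X n` whose universal
covers `Q n` (with the lifted length metrics) have 1-dimensional Uryson width at most `1`, while the
1-dimensional Uryson widths of the `X n` tend to infinity.

Outline of the proof.
* Let `D = 8 m + 1` be large, `W` the right angled Coxeter group of the `D`-gon (its Cayley square
  complex is a plane), `V` a finite quotient of `W` which is injective on a large ball. A rotation
  `c v` (a label at cyclic distance at least `m` from `0`) at each vertex `v` of `V` defines a system
  of lines on the finite square complex: a line which arrives at `v` along the edge `a` leaves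
  along `a + c v`. Remove a sparse set `H` of vertices (holes) which meets every long line (local
  lemma). The space `X` is obtained from the complex of the remaining squares by gluing a simplex
  on every square and on every hole-free piece of a line (length metric with edges of length one).
* In the universal cover every line through an interior vertex of a disk meets the boundary of the
  disk (it ends at a hole). By a Sperner type argument the universal cover is a quasi-tree with a
  universal constant, so `UW₁(universal cover) ≤ 100` for all parameters.
* If `UW₁(X) < K` one gets labels of fine vertices of the plane with at most two labels on each
  fine triangle, classes (components of label classes) of bounded size, hence chains of at most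
  `K2` line segments between the holes touched by a class. A winding number argument shows that
  every vertex lies on such a (minimal) chain, a planarity argument that these chains do not
  cross at vertices deep inside their segments.
* For a random rotation `c` every thick noncrossing family of pieces of lines has small density
  (exploration of the pieces, a flow of short random walks from the fresh vertices to the crossing
  edges, Kac's formula, union bound). So the chains cannot cover all vertices.
-/

set_option autoImplicit false

open UW1 Filter Topology

namespace Pool.Agent.Results.MP_fc0f29_gt.CoverWidthUnbounded

/-- **Theorem.** There are compact geodesic metric spaces `X n` with universal covers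
`π n : Q n → X n` (`Q n` is a simply connected geodesic metric space, `π n` is a surjective covering
map and a local isometry) such that the 1-dimensional Uryson width of every `Q n` is at most `1`
(even if it is computed only with maps which are locally maps into finite subcomplexes), but the
1-dimensional Uryson width of `X n` tends to infinity. -/
theorem result :
    ∃ (X Q : ℕ → Type) (_ : ∀ n, MetricSpace (X n)) (_ : ∀ n, MetricSpace (Q n))
      (π : ∀ n, Q n → X n),
      (∀ n, CompactSpace (X n) ∧ Geodesic (X n) ∧ SimplyConnectedSpace (Q n) ∧
        Geodesic (Q n) ∧ IsCoveringMap (π n) ∧ Function.Surjective (π n) ∧ LocIso (π n) ∧
        UW 1 (Q n) ≤ 1 ∧ UWT.UWloc 1 (Q n) ≤ 1) ∧
      Tendsto (fun n => UW 1 (X n)) atTop (𝓝 ⊤) :=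
  URW.answer_seq

end Pool.Agent.Results.MP_fc0f29_gt.CoverWidthUnbounded
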