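import Pool.Agent.UW1.Main

/-!
# The 1-dimensional Uryson width of a space and of its universal cover

For every compact geodesic space `X` with universal cover `Q` (with the lifted length metric) and
first Betti number at most `b`, `UW₁(X) ≤ 42 (b + 1) UW₁(Q)`. In particular the answer to Q1 of
MP_fc0f29_gt is yes for all sequences with bounded first Betti numbers.

Outline of the proof.
* A simply connected geodesic space `Q` with `UW₁(Q) < w` has the bottleneck property with
  `C = 3 w / 2`: a path which joins the endpoints of a geodesic comes within `C` of each point of
  the geodesic (Sperner parity on a homotopy between the two).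
* For a point `x` of `Q` let `E` be the group generated by the deck transformations which move `x`
  by less than `2 r`, where `r > 5 C`. At distance `s = r + 2 C` from the orbit `E x` all gates
  (frontiers of components of the complement) have diameter at most `6 C`.
* Hence a geodesic of `X` through `x` splits the complement of the `s`-neighbourhood of `E x` in a
  way invariant under `E`, and the transfer (the sum over the cosets of `E`) of this splitting is a
  homomorphism from the deck group to `ℤ` which vanishes on all loops avoiding the `s`-ball around
  `x` and takes the value `1` on loops which cross this ball once, along the geodesic.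
* If a component of a metric sphere (a thin metric annulus) of `X` had diameter at least
  `(b + 1) (28 C + …)`, then `b + 1` of these homomorphisms, belonging to disjoint balls strung
  along the component, would be linearly independent.
* The components of thin annuli form a cover of multiplicity two; its nerve is a finite graph.
-/

set_option autoImplicit false

namespace Pool.Agent.Results.MP_fc0f29_gt.UniversalCoverBetti

open UW1

universe u

/-- Finite complexes are complexes. -/
theorem uw_le_uwfin (k : ℕ) (X : Type u) [MetricSpace X] : UW k X ≤ UWfin k X :=
  sInf_le_sInf fun _ ⟨V, _, K, h⟩ => ⟨V, K, h⟩

/-- **Theorem.** Let `X` be a compact geodesic metric space and `p : Q → X` its universal cover: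
`Q` is a simply connected geodesic metric space and `p` is a covering map and a local isometry.
Let `b` be at least the first Betti number of `X`, that is, the rank of the group
`Hom(π₁(X), ℤ)`. Then the 1-dimensional Uryson width of `X` is at most `42 (b + 1)` times that of
`Q`. (The width of `X` can even be computed with finite complexes.) -/
theorem result {X Q : Type u} [MetricSpace X] [CompactSpace X] [MetricSpace Q]
    [SimplyConnectedSpace Q] (hX : Geodesic X) (hQ : Geodesic Q) (p : Q → X)
    (hp : IsCoveringMap p) (hl : LocIso p) (x₀ : X) (b : ℕ)
    (hb : Module.rank ℤ (Additive (FundamentalGroup X x₀) →+ ℤ) ≤ b) :
    UW 1 X ≤ UWfin 1 X ∧ UWfin 1 X ≤ 42 * (b + 1) * UW 1 Q :=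
  ⟨uw_le_uwfin 1 X, main hX hQ p hp hl x₀ b hb⟩

end Pool.Agent.Results.MP_fc0f29_gt.UniversalCoverBetti
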